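import Pool.Agent.Lib.MP_1c575b_co.Link

set_option autoImplicit false

namespace Pool.Agent.Results.MP_1c575b_co.ForciblyBiconnected

open Filter Topology
open Pool.Agent.Lib.MP_1c575b_co

/-- The numbers `gf 2 (2 * n)` of forcibly biconnected graphical partitions of `2 * n` are negligible
against the numbers `gf 1 (2 * n)` of forcibly connected ones (which are positive), hence also against
the numbers `g (2 * n)` of all graphical partitions of `2 * n`. -/
theorem result :
    (∀ n : ℕ, 1 ≤ n → 0 < gf 1 (2 * n)) ∧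
    Tendsto (fun n : ℕ => (gf 2 (2 * n) : ℝ) / (gf 1 (2 * n) : ℝ)) atTop (𝓝 0) ∧
    Tendsto (fun n : ℕ => (gf 2 (2 * n) : ℝ) / (g (2 * n) : ℝ)) atTop (𝓝 0) :=
  main

end Pool.Agent.Results.MP_1c575b_co.ForciblyBiconnected
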